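import Pool.Agent.KIL.Stmts
import Pool.Agent.Helper77_LQF.JAL

/-! Block KIL (MP_1906c1_mp), row KLR (helper44): the last round. -/

set_option autoImplicit false

open MeasureTheory ProbabilityTheory Function Filter

open scoped ENNReal BigOperators Topology NNReal Matrix

noncomputable section

namespace Pool.Agent.KIL.H44

open Pool.Agent.LE.QF (HJ HM gG LL dC JalStmt)

section basic

variable {ι X : Type} [Fintype ι] [DecidableEq ι] [Fintype X] [DecidableEq X]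

theorem nn_nonneg {κ : X → ℝ} {G : Matrix X X ℂ} {o : X} (hκ : ∀ v, 0 ≤ κ v) (v : X) :
    0 ≤ nn κ G o v := mul_nonneg (hκ v) (sq_nonneg _)

theorem aa_nonneg {κ : X → ℝ} {G : Matrix X X ℂ} {o : X} (hκ : ∀ v, 0 ≤ κ v)
    (hg : 0 < gam κ G o) (v : X) : 0 ≤ aa κ G o v := div_nonneg (nn_nonneg hκ v) hg.le

/-- `aa` is twice continuously differentiable -/
theorem aa_cd {e : ι → X} {q : ℝ × (ι → ℝ)} {Gm : ℝ × (ι → ℝ) → Matrix X X ℂ}
    {kp : ℝ → X → ℝ} {G : Matrix X X ℂ} {κ g : X → ℝ} {μ : ι → ℂ} {o : X}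
    (h : KJ e q Gm kp G κ g μ) (hg : 0 < gam κ G o) (hGq : Gm q = G) (hkq : kp q.1 = κ) (v : X) :
    ContDiffAt ℝ 2 (fun r => aa (kp r.1) (Gm r) o v) q := by
  have h1 : ∀ w, ContDiffAt ℝ 2 (fun r : ℝ × (ι → ℝ) => nn (kp r.1) (Gm r) o w) q := by
    intro w
    have h2 : ContDiffAt ℝ 2 (fun r : ℝ × (ι → ℝ) => kp r.1 w) q :=
      ContDiffAt.comp q (h.hk w).1 contDiffAt_fst
    exact h2.mul ((h.hG w o).sm.norm_sq ℝ)
  have h3 : ContDiffAt ℝ 2 (fun r : ℝ × (ι → ℝ) => gam (kp r.1) (Gm r) o) q :=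
    ContDiffAt.sum fun w _ => h1 w
  refine (h1 v).div h3 ?_
  rw [hGq, hkq]
  exact hg.ne'

theorem uL_cd {e : ι → X} {q : ℝ × (ι → ℝ)} {Gm : ℝ × (ι → ℝ) → Matrix X X ℂ}
    {kp : ℝ → X → ℝ} {G : Matrix X X ℂ} {κ g : X → ℝ} {μ : ι → ℂ} {o : X}
    (h : KJ e q Gm kp G κ g μ) (hg : 0 < gam κ G o) (hGq : Gm q = G) (hkq : kp q.1 = κ)
    (B : Finset X) (lam ρ t₁ : ℝ) (j : ℕ) :
    ContDiffAt ℝ 2 (fun r => uL e B lam ρ t₁ j (kp r.1) (Gm r) o) q := by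
  have ha := aa_cd h hg hGq hkq
  have hm : ContDiffAt ℝ 2 (fun r : ℝ × (ι → ℝ) => ∑ c, aa (kp r.1) (Gm r) o (e c)) q :=
    ContDiffAt.sum fun c _ => ha (e c)
  unfold uL
  refine ContDiffAt.add ?_ (ContDiffAt.mul ?_ ?_)
  · exact (contDiffAt_const.mul (hm.sub contDiffAt_const)).exp
  · exact (contDiffAt_const.mul hm).exp
  · exact ContDiffAt.sum fun v _ => (((ha v).add contDiffAt_const).div_const _).pow j

/-- lower bound for the functional -/
theorem uL_lb {e : ι → X} {B : Finset X} {lam ρ t₁ : ℝ} {j : ℕ} {κ : X → ℝ}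
    {G : Matrix X X ℂ} {o : X} (ht : 0 < t₁) (h : ∀ v ∈ B, -(t₁ / 2) ≤ aa κ G o v) :
    Real.exp (lam * ((∑ c, aa κ G o (e c)) - 2 * ρ)) ≤ uL e B lam ρ t₁ j κ G o := by
  unfold uL
  have h1 : 0 ≤ Real.exp (lam * ∑ c, aa κ G o (e c)) *
      ∑ v ∈ B, ((aa κ G o v + t₁ / 2) / (5 * t₁ / 2)) ^ j := by
    refine mul_nonneg (Real.exp_pos _).le (Finset.sum_nonneg fun v hv => pow_nonneg ?_ _)
    exact div_nonneg (by linarith [h v hv]) (by linarith)
  linarith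

theorem uL_nonneg {e : ι → X} {B : Finset X} {lam ρ t₁ : ℝ} {j : ℕ} {κ : X → ℝ}
    {G : Matrix X X ℂ} {o : X} (ht : 0 < t₁) (h : ∀ v ∈ B, -(t₁ / 2) ≤ aa κ G o v) :
    0 ≤ uL e B lam ρ t₁ j κ G o := (Real.exp_pos _).le.trans (uL_lb ht h)

theorem uL_ge_one {e : ι → X} {B : Finset X} {lam ρ t₁ : ℝ} {j : ℕ} {κ : X → ℝ}
    {G : Matrix X X ℂ} {o : X} (ht : 0 < t₁) (hl : 0 ≤ lam) (hκ : ∀ v, 0 ≤ aa κ G o v) {v : X}
    (hv : v ∈ B) (h : 2 * t₁ ≤ aa κ G o v) : 1 ≤ uL e B lam ρ t₁ j κ G o := by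
  unfold uL
  have h1 : 1 ≤ ((aa κ G o v + t₁ / 2) / (5 * t₁ / 2)) ^ j := by
    refine one_le_pow₀ ?_
    rw [le_div_iff₀ (by linarith)]
    linarith
  have h2 : ((aa κ G o v + t₁ / 2) / (5 * t₁ / 2)) ^ j ≤
      ∑ v ∈ B, ((aa κ G o v + t₁ / 2) / (5 * t₁ / 2)) ^ j := by
    refine Finset.single_le_sum (f := fun v => ((aa κ G o v + t₁ / 2) / (5 * t₁ / 2)) ^ j)
      (fun w _ => pow_nonneg (div_nonneg (by linarith [hκ w]) (by linarith)) _) hv
  have h3 : 1 ≤ Real.exp (lam * ∑ c, aa κ G o (e c)) :=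
    Real.one_le_exp (mul_nonneg hl (Finset.sum_nonneg fun c _ => hκ (e c)))
  have h4 : 0 ≤ Real.exp (lam * ((∑ c, aa κ G o (e c)) - 2 * ρ)) := (Real.exp_pos _).le
  have h5 : (1 : ℝ) * 1 ≤ Real.exp (lam * ∑ c, aa κ G o (e c)) *
      ∑ v ∈ B, ((aa κ G o v + t₁ / 2) / (5 * t₁ / 2)) ^ j :=
    mul_le_mul h3 (h1.trans h2) (by norm_num) (Real.exp_pos _).le
  linarith

theorem exp_num : Real.exp (1 / 4) * (3 / 5) ≤ Real.exp (-(1 / 5)) := by
  have h1 : Real.exp (1 / 4) * (3 / 5) = Real.exp (-(1 / 5)) * (Real.exp (9 / 20) * (3 / 5)) := by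
    rw [← mul_assoc, ← Real.exp_add]
    norm_num
  rw [h1]
  have h2 : Real.exp (9 / 20) ≤ 5 / 3 := by
    have h3 : Real.exp (9 / 20) ^ 20 ≤ (5 / 3) ^ 20 := by
      rw [← Real.exp_nat_mul]
      have h4 : ((20 : ℕ) : ℝ) * (9 / 20) = ((9 : ℕ) : ℝ) * 1 := by norm_num
      rw [h4, Real.exp_nat_mul]
      have h5 := Real.exp_one_lt_d9.le
      calc Real.exp 1 ^ 9 ≤ 2.7182818286 ^ 9 := pow_le_pow_left₀ (Real.exp_pos _).le h5 9
        _ ≤ (5 / 3) ^ 20 := by norm_num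
    exact le_of_pow_le_pow_left₀ (by norm_num) (by norm_num) h3
  calc Real.exp (-(1 / 5)) * (Real.exp (9 / 20) * (3 / 5)) ≤
        Real.exp (-(1 / 5)) * (5 / 3 * (3 / 5)) :=
        mul_le_mul_of_nonneg_left (mul_le_mul_of_nonneg_right h2 (by norm_num)) (Real.exp_pos _).le
    _ = Real.exp (-(1 / 5)) := by norm_num

theorem uL_ub {e : ι → X} {B : Finset X} {lam ρ t₁ : ℝ} {j : ℕ} {κ : X → ℝ}
    {G : Matrix X X ℂ} {o : X} (ht : 0 < t₁) (hρ : 0 < ρ) (hl : lam = j / (4 * ρ))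
    (hκ : ∀ v, 0 ≤ aa κ G o v) (hm : ∑ c, aa κ G o (e c) ≤ ρ) (hB : ∀ v ∈ B, aa κ G o v ≤ t₁) :
    uL e B lam ρ t₁ j κ G o ≤ (1 + B.card) * Real.exp (-(j : ℝ) / 5) := by
  have hlr : lam * ρ = j / 4 := by
    rw [hl]
    field_simp
  have hl0 : 0 ≤ lam := by rw [hl]; positivity
  unfold uL
  have h1 : Real.exp (lam * ((∑ c, aa κ G o (e c)) - 2 * ρ)) ≤ Real.exp (-(j : ℝ) / 5) := by
    apply Real.exp_le_exp.2
    have h2 : lam * ((∑ c, aa κ G o (e c)) - 2 * ρ) ≤ lam * (-ρ) :=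
      mul_le_mul_of_nonneg_left (by linarith) hl0
    have h3 : (0 : ℝ) ≤ j := Nat.cast_nonneg j
    linarith
  have h2 : ∀ v ∈ B, ((aa κ G o v + t₁ / 2) / (5 * t₁ / 2)) ^ j ≤ (3 / 5 : ℝ) ^ j := by
    intro v hv
    refine pow_le_pow_left₀ (div_nonneg (by linarith [hκ v]) (by linarith)) ?_ j
    rw [div_le_iff₀ (by linarith)]
    linarith [hB v hv]
  have h3 : ∑ v ∈ B, ((aa κ G o v + t₁ / 2) / (5 * t₁ / 2)) ^ j ≤ B.card * (3 / 5 : ℝ) ^ j := by
    refine (Finset.sum_le_sum h2).trans (le_of_eq ?_)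
    rw [Finset.sum_const, nsmul_eq_mul]
  have h4 : Real.exp (lam * ∑ c, aa κ G o (e c)) ≤ Real.exp (1 / 4) ^ j := by
    rw [← Real.exp_nat_mul]
    apply Real.exp_le_exp.2
    have h5 : lam * ∑ c, aa κ G o (e c) ≤ lam * ρ := mul_le_mul_of_nonneg_left hm hl0
    linarith
  have h5 : Real.exp (lam * ∑ c, aa κ G o (e c)) *
      ∑ v ∈ B, ((aa κ G o v + t₁ / 2) / (5 * t₁ / 2)) ^ j ≤
      B.card * Real.exp (-(j : ℝ) / 5) := by
    have h6 : 0 ≤ ∑ v ∈ B, ((aa κ G o v + t₁ / 2) / (5 * t₁ / 2)) ^ j :=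
      Finset.sum_nonneg fun v _ => pow_nonneg (div_nonneg (by linarith [hκ v]) (by linarith)) _
    calc _ ≤ Real.exp (1 / 4) ^ j * (B.card * (3 / 5 : ℝ) ^ j) :=
          mul_le_mul h4 h3 h6 (by positivity)
      _ = B.card * (Real.exp (1 / 4) * (3 / 5)) ^ j := by rw [mul_pow]; ring
      _ ≤ B.card * Real.exp (-(1 / 5)) ^ j := by
          refine mul_le_mul_of_nonneg_left ?_ (Nat.cast_nonneg _)
          exact pow_le_pow_left₀ (by positivity) exp_num j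
      _ = B.card * Real.exp (-(j : ℝ) / 5) := by
          rw [← Real.exp_nat_mul]
          congr 2
          ring
  linarith

end basic

theorem cu_add {x y : ℝ} (hx : 0 ≤ x) (hy : 0 ≤ y) : cu (x + y) ≤ cu x + 3 * y := by
  unfold cu
  have h1 : 0 ≤ max (1 - x) 0 := le_max_right _ _
  have h2 : max (1 - x) 0 ≤ 1 := max_le (by linarith) (by norm_num)
  have h3 : 0 ≤ max (1 - (x + y)) 0 := le_max_right _ _
  have h4 : max (1 - (x + y)) 0 ≤ max (1 - x) 0 := max_le_max (by linarith) le_rfl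
  have h5 : max (1 - x) 0 ≤ max (1 - (x + y)) 0 + y := by
    refine max_le ?_ (by linarith)
    linarith [le_max_left (1 - (x + y)) 0]
  generalize max (1 - x) 0 = p at *
  generalize max (1 - (x + y)) 0 = r at *
  have h6 : p ^ 3 - r ^ 3 = (p - r) * (p ^ 2 + p * r + r ^ 2) := by ring
  have h7 : p ^ 2 + p * r + r ^ 2 ≤ 3 := by nlinarith
  have h8 : (p - r) * (p ^ 2 + p * r + r ^ 2) ≤ y * 3 :=
    mul_le_mul (by linarith) h7 (by positivity) hy
  linarith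

theorem klr (hklj : KljStmt) (huf3 : Uf3Stmt) : KlrStmt := by
  intro ι X _ _ _ _ e Gm kp g μ Rn B o T κs g₀ δ Lc kI t₁ ρ ε h bL lam j u b hT hBR heB heR hoR
    hkI0 hj ht1 ht1' hρ hε0 hε1 hδg hκsL hh hlam hj1 hj2 hbL0 hbL hb hb0 hq hm0 hB0
  have hj0 : (0 : ℝ) < j := by exact_mod_cast (show 0 < j by omega)
  have hl0 : 0 < lam := by rw [hlam]; positivity
  obtain ⟨UL, hUL⟩ : ∃ UL : ℝ × (ι → ℝ) → ℝ, UL = fun r =>
      uL e B lam ρ t₁ j (kp r.1) (Gm r) o := ⟨_, rfl⟩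
  have hULa : ∀ r, UL r = uL e B lam ρ t₁ j (kp r.1) (Gm r) o := fun r => by rw [hUL]
  have haa : ∀ q : ℝ × (ι → ℝ), 0 ≤ q.1 → q.1 ≤ T → ∀ v, 0 ≤ aa (kp q.1) (Gm q) o v :=
    fun q h0 h1 v => aa_nonneg (hq q h0 h1).2.1 (hq q h0 h1).2.2.1 v
  have hULn : ∀ q : ℝ × (ι → ℝ), 0 ≤ q.1 → q.1 ≤ T → 0 ≤ UL q := by
    intro q h0 h1
    rw [hULa]
    exact uL_nonneg ht1 fun v _ => by linarith [haa q h0 h1 v]
  obtain ⟨E, hE⟩ : ∃ E : ℝ → ℝ, E = fun t => Real.exp (bL * (T - t)) := ⟨_, rfl⟩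
  have hEp : ∀ t, 0 < E t := fun t => by rw [hE]; exact Real.exp_pos _
  have hE1 : ∀ t, t ≤ T → 1 ≤ E t := fun t ht => by
    rw [hE]
    exact Real.one_le_exp (mul_nonneg hbL0 (by linarith))
  have hEcd : ∀ t, ContDiffAt ℝ 2 E t := fun t => by
    rw [hE]
    exact (contDiffAt_const.mul (contDiffAt_const.sub contDiffAt_id)).exp
  have hEd : ∀ t, deriv E t = -bL * E t := by
    intro t
    rw [hE]
    have h1 : HasDerivAt (fun t : ℝ => bL * (T - t)) (bL * (0 - 1)) t :=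
      ((hasDerivAt_const t T).sub (hasDerivAt_id t)).const_mul bL
    rw [h1.exp.deriv]
    ring
  have main := huf3 ι T 1 3 b (fun _ => 0) (fun q => u q + E q.1 * UL q) (fun _ => 0)
    (fun _ => 0) hT one_pos (by norm_num) hb continuous_const (fun t => ⟨hb0 t, le_rfl⟩) (by
      intro q h0 h1
      obtain ⟨hKJ, hkp, hgam, hu0, hcd, himp⟩ := hq q h0 h1
      have hcdL : ContDiffAt ℝ 2 UL q := by
        rw [hUL]
        exact uL_cd hKJ hgam rfl rfl B lam ρ t₁ j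
      have hcdE : ContDiffAt ℝ 2 (fun r : ℝ × (ι → ℝ) => E r.1) q :=
        ContDiffAt.comp q (hEcd q.1) contDiffAt_fst
      refine ⟨add_nonneg hu0 (mul_nonneg (hEp _).le (hULn q h0 h1)),
        hcd.add (hcdE.mul hcdL), contDiffAt_const, le_rfl, zero_le_one, fun hlt => ?_⟩
      have hvn : UL q ≤ E q.1 * UL q := by
        have := mul_le_mul_of_nonneg_right (hE1 q.1 h1) (hULn q h0 h1)
        linarith
      have hu1 : u q < 1 := by
        have := hULn q h0 h1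
        linarith
      have hUL1 : UL q < 1 := by linarith
      obtain ⟨hLL, hKGd, hkI⟩ := himp hu1
      have hm : ∑ c, aa (kp q.1) (Gm q) o (e c) ≤ 2 * ρ := by
        have h3 : Real.exp (lam * ((∑ c, aa (kp q.1) (Gm q) o (e c)) - 2 * ρ)) < 1 := by
          refine lt_of_le_of_lt (uL_lb (e := e) (B := B) (lam := lam) (ρ := ρ) (j := j) ht1
            fun v _ => ?_) (by rw [← hULa]; exact hUL1)
          linarith [haa q h0 h1 v]
        rw [Real.exp_lt_one_iff] at h3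
        have h4 : (∑ c, aa (kp q.1) (Gm q) o (e c)) - 2 * ρ < 0 := by
          by_contra hcon
          push Not at hcon
          exact absurd (mul_nonneg hl0.le hcon) (not_le.2 h3)
        linarith
      obtain ⟨g', l', hHJ, hl'⟩ := hklj ι X e q Gm kp (Gm q) (kp q.1) g (μ q) o Rn B κs g₀ δ Lc
        kI t₁ ρ ε h lam j hKJ hKGd hgam hBR heB hkI hkI0 hj ht1 ht1' hρ hε0 hε1 hδg hκsL hh hlam
        hj1 hj2 hm
      have hHJu : HJ u q (u q) (fun c => dC c u q) (LL u q) := ⟨hcd, rfl, fun _ => rfl, rfl⟩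
      have hHJL : HJ UL q (UL q) g' l' := by
        rw [hUL]
        exact hHJ
      have hHJE : HJ (fun r : ℝ × (ι → ℝ) => E r.1) q (E q.1) (fun _ => 0) (deriv E q.1) :=
        LE.QF.H77.jtime E (hEcd q.1)
      have hmul := LE.QF.H77.jmul hHJE hHJL
      have hadd := LE.QF.H77.jadd hHJu hmul
      have hLLs : LL (fun r => u r + E r.1 * UL r) q =
          LL u q + (E q.1 * l' + deriv E q.1 * UL q + ∑ c, (0 : ℝ) * g' c) := hadd.ge
      have h0J := LE.QF.H77.jconst (ι := ι) (q := q) (0 : ℝ)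
      refine ⟨?_, ?_, ?_⟩
      · show LL (fun r => u r + E r.1 * UL r) q ≤ b q.1
        rw [hLLs, hEd]
        have h5 : l' ≤ bL * UL q := by
          refine hl'.trans ?_
          rw [hULa]
          exact mul_le_mul_of_nonneg_right hbL (by rw [← hULa]; exact hULn q h0 h1)
        have h6 := mul_le_mul_of_nonneg_left h5 (hEp q.1).le
        simp only [zero_mul, Finset.sum_const_zero]
        nlinarith
      · have h7 : LL (fun _ : ℝ × (ι → ℝ) => (0 : ℝ)) q = 0 := h0J.ge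
        rw [h7]
        simp
      · have h8 : ∀ c, dC c (fun _ : ℝ × (ι → ℝ) => (0 : ℝ)) q = 0 := h0J.gr
        simp [h8])
  have hTT : ∀ V : ι → ℝ, u (T, V) + E T * UL (T, V) =
      u (T, V) + uL e B lam ρ t₁ j (kp T) (Gm (T, V)) o := by
    intro V
    rw [hULa]
    have h1 : E T = 1 := by rw [hE]; simp
    rw [h1, one_mul]
  simp only [mul_zero, zero_add, intervalIntegral.integral_zero, add_zero, hTT] at main
  rw [integral_const_mul] at main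
  have h0 : UL (0, 0) ≤ (1 + B.card) * Real.exp (-(j : ℝ) / 5) := by
    rw [hULa]
    exact uL_ub ht1 hρ hlam (haa (0, 0) le_rfl hT.le) hm0 hB0
  have hu00 : 0 ≤ u (0, 0) := (hq (0, 0) le_rfl hT.le).2.2.2.1
  have hE0 : E 0 = Real.exp (T * bL) := by
    rw [hE]
    show Real.exp (bL * (T - 0)) = _
    congr 1
    ring
  have h1 := cu_add hu00 (mul_nonneg (hEp 0).le (hULn (0, 0) le_rfl hT.le))
  have h2 : E 0 * UL (0, 0) ≤ Real.exp (T * bL) * ((1 + B.card) * Real.exp (-(j : ℝ) / 5)) := by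
    rw [hE0]
    exact mul_le_mul_of_nonneg_left h0 (Real.exp_pos _).le
  linarith

end Pool.Agent.KIL.H44
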